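import Pool.Agent.H96.PC.A

set_option autoImplicit false

/-! The von Mangoldt function and its sieve model along a family in a residue class. -/

namespace Pool.Agent.H96.PC
open Finset
open Pool.Agent.H373R2.T7 (fz ev_L' energy lamI lamzI lamz)
open Pool.Agent.Y883.T4 (BadF)

lemma badF_mono (f : ℕ → ℝ) (M A A' q : ℕ) (hA : A ≤ A') (hL : 1 ≤ Real.log (M : ℝ)) (hq : 1 ≤ q) (h : BadF f M A q) :
    BadF f M A' q := by
  obtain ⟨G, y, c0, g1, g2, g3, g4, g5⟩ := h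
  refine ⟨G, y, c0, g1, g2, g3, g4, lt_of_le_of_lt ?_ g5⟩
  have hq0 : (0 : ℝ) < q := by exact_mod_cast hq
  apply div_le_div_of_nonneg_left (by positivity) (by positivity)
  exact mul_le_mul_of_nonneg_left (pow_le_pow_right₀ hL hA) hq0.le

theorem pair_cls (p B C U : ℕ) (hp : 1 ≤ p) : ∃ A₁ N₀ : ℕ, ∀ N : ℕ, N₀ ≤ N → ∀ (z : ℕ) (f : ℕ → ℝ),
    ∑ n ∈ Icc 1 ((2 * B + 4) * N), |(ArithmeticFunction.vonMangoldt n - lamz z n) - f n| ≤
      (((2 * B + 4) * N : ℕ) : ℝ) / Real.log (((2 * B + 4) * N : ℕ) : ℝ) ^ A₁ →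
    ∑ n ∈ Icc 1 ((2 * B + 4) * N), f n ^ 2 ≤ (((2 * B + 4) * N : ℕ) : ℝ) * Real.log (((2 * B + 4) * N : ℕ) : ℝ) ^ 8 →
    ∀ q : ℕ, 1 ≤ q → q ≤ N → ¬ BadF f ((2 * B + 4) * N) A₁ q →
    ∀ c : ℤ, ∀ (x : ℕ) (t : ℕ → ℤ), (∀ m ∈ Icc 1 x, |c + q * t m| ≤ (B + 1) * N) →
    (energy p x t : ℝ) * N ≤ Real.log N ^ C * q * (x : ℝ) ^ (2 * p) →
    ∀ v : ℕ, v ≤ (B + 1) * N → ∀ G : ℕ → ℝ, (∀ a ∈ Icc 1 v, |G a| ≤ 3 * Real.log N) →
      ∑ m ∈ Icc 1 x, |∑ a ∈ Icc 1 v, G a * (lamI ((a : ℤ) + (c + q * t m)) - lamzI z ((a : ℤ) + (c + q * t m)))| ≤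
        N * x / Real.log N ^ U := by
  classical
  obtain ⟨A', N₁, h1⟩ := moment p B C (U + 2) hp
  obtain ⟨R, hR⟩ : ∃ R : ℕ, R = 2 * B + 4 := ⟨_, rfl⟩
  obtain ⟨N₂, h2⟩ := ev_L' (3 + 3 * R)
  refine ⟨A' + U + 2, N₁ + N₂ + 3, fun N hN z f hf1 hf2 q hq hqN hbad c x t hd hE v hv G hG => ?_⟩
  have hL := h2 N (by omega)
  have hN1 : 1 ≤ N := by omega
  have hN0 : (0 : ℝ) < N := by exact_mod_cast hN1
  obtain ⟨M, hM⟩ : ∃ M, M = (2 * B + 4) * N := ⟨_, rfl⟩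
  have hmom := h1 N (by omega) f hf2 q hq hqN
  rw [← hM] at hf1 hbad hmom
  have hMR : (M : ℝ) = R * N := by rw [hM, hR]; push_cast; ring
  have hNM : N ≤ M := by rw [hM]; exact Nat.le_mul_of_pos_left _ (by omega)
  have hLLM : Real.log N ≤ Real.log M := Real.log_le_log hN0 (by exact_mod_cast hNM)
  have hR0 : (0 : ℝ) ≤ R := Nat.cast_nonneg _
  have hbad' : ¬ BadF f M A' q := fun h => hbad (badF_mono f M A' _ q (by omega) (by linarith) hq h)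
  obtain ⟨L, hLd⟩ : ∃ L, L = Real.log (N : ℝ) := ⟨_, rfl⟩
  have hmom2 := hmom hbad' c x t hd hE v hv
  obtain ⟨LM, hLMd⟩ : ∃ LM, LM = Real.log (M : ℝ) := ⟨_, rfl⟩
  rw [← hLd] at hL hLLM hG hmom2 ⊢
  rw [← hLMd] at hLLM hf1
  have hL0 : 0 < L := by linarith
  have hL1 : 1 ≤ L := by linarith
  obtain ⟨G', hG'⟩ : ∃ G' : ℕ → ℂ, G' = fun a => if a ∈ Icc 1 v then ((G a / (3 * L) : ℝ) : ℂ) else 0 := ⟨_, rfl⟩
  have hG1 : ∀ a, ‖G' a‖ ≤ 1 := by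
    intro a
    rw [hG']
    simp only
    split_ifs with h
    · rw [Complex.norm_real, Real.norm_eq_abs, abs_div, abs_of_pos (by positivity : 0 < 3 * L), div_le_one (by positivity)]
      exact hG a h
    · rw [norm_zero]
      exact zero_le_one
  have hmom3 := hmom2 G' hG1
  obtain ⟨φ, hφ⟩ : ∃ φ : ℕ → ℝ, φ = fun n => (ArithmeticFunction.vonMangoldt n - lamz z n) - f n := ⟨_, rfl⟩
  have hφ1 : ∑ n ∈ Icc 1 M, |φ n| ≤ M / LM ^ (A' + U + 2) := by rw [hφ]; exact hf1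
  have hpt : ∀ m ∈ Icc 1 x, |∑ a ∈ Icc 1 v, G a * (lamI ((a : ℤ) + (c + q * t m)) - lamzI z ((a : ℤ) + (c + q * t m)))| ≤
      3 * L * (‖∑ a ∈ Icc 1 v, G' a * fz (fun k => ((f k : ℝ) : ℂ)) M ((a : ℤ) + (c + q * t m))‖ +
        M / LM ^ (A' + U + 2)) := by
    intro m hm
    obtain ⟨s, hs⟩ : ∃ s : ℤ, s = c + q * t m := ⟨_, rfl⟩
    have hs1 := hd m hm
    rw [← hs] at hs1 ⊢
    have e1 : ((∑ a ∈ Icc 1 v, G a * (lamI ((a : ℤ) + s) - lamzI z ((a : ℤ) + s)) : ℝ) : ℂ) =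
        ((3 * L : ℝ) : ℂ) * (∑ a ∈ Icc 1 v, G' a * fz (fun k => ((f k : ℝ) : ℂ)) M ((a : ℤ) + s) +
          ∑ a ∈ Icc 1 v, G' a * fz (fun k => ((φ k : ℝ) : ℂ)) M ((a : ℤ) + s)) := by
      rw [← sum_add_distrib, mul_sum]
      push_cast
      apply sum_congr rfl
      intro a ha
      have ha' := ha
      rw [mem_Icc] at ha'
      have hle : (a : ℤ) + s ≤ M := by
        have h3 := (abs_le.1 hs1).2
        have h4 : (a : ℤ) ≤ (B + 1) * N := by exact_mod_cast ha'.2.trans hv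
        rw [hM]
        push_cast
        nlinarith
      rw [hG', hφ]
      simp only
      rw [if_pos ha]
      unfold fz lamI lamzI
      have h3L : ((3 : ℂ) * (L : ℂ)) ≠ 0 := by
        have : (3 * L : ℝ) ≠ 0 := by positivity
        exact_mod_cast this
      by_cases h0 : 1 ≤ (a : ℤ) + s
      · rw [if_pos h0, if_pos h0, if_pos ⟨h0, hle⟩, if_pos ⟨h0, hle⟩]
        push_cast
        rw [← mul_add, ← mul_assoc, mul_div_cancel₀ _ h3L]
        ring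
      · rw [if_neg h0, if_neg h0, if_neg (fun h => h0 h.1), if_neg (fun h => h0 h.1)]
        simp
    have e2 : |∑ a ∈ Icc 1 v, G a * (lamI ((a : ℤ) + s) - lamzI z ((a : ℤ) + s))| =
        ‖((∑ a ∈ Icc 1 v, G a * (lamI ((a : ℤ) + s) - lamzI z ((a : ℤ) + s)) : ℝ) : ℂ)‖ := by
      rw [Complex.norm_real, Real.norm_eq_abs]
    rw [e2, e1, norm_mul, Complex.norm_real, Real.norm_eq_abs, abs_of_pos (by positivity : 0 < 3 * L)]
    apply mul_le_mul_of_nonneg_left _ (by positivity)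
    refine (norm_add_le _ _).trans (add_le_add_right ?_ _)
    exact (l1_fz φ M v G' hG1 s).trans hφ1
  refine (sum_le_sum hpt).trans ?_
  rw [← mul_sum, sum_add_distrib, sum_const, Nat.card_Icc, Nat.add_sub_cancel, nsmul_eq_mul]
  have hx0 : (0 : ℝ) ≤ x := Nat.cast_nonneg _
  have t1 : (x : ℝ) * (M / LM ^ (A' + U + 2)) ≤ x * (R * N / L ^ (U + 2)) := by
    apply mul_le_mul_of_nonneg_left _ hx0
    rw [hMR]
    apply div_le_div_of_nonneg_left (by positivity) (by positivity)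
    calc L ^ (U + 2) ≤ LM ^ (U + 2) := pow_le_pow_left₀ hL0.le hLLM _
      _ ≤ LM ^ (A' + U + 2) := pow_le_pow_right₀ (by linarith) (by omega)
  calc 3 * L * (∑ m ∈ Icc 1 x, ‖∑ a ∈ Icc 1 v, G' a * fz (fun k => ((f k : ℝ) : ℂ)) M ((a : ℤ) + (c + q * t m))‖ +
        x * (M / LM ^ (A' + U + 2))) ≤ 3 * L * (N * x / L ^ (U + 2) + x * (R * N / L ^ (U + 2))) :=
        mul_le_mul_of_nonneg_left (add_le_add hmom3 t1) (by positivity)
    _ = N * x / L ^ U * ((3 + 3 * R) / L) := by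
        rw [pow_add]
        field_simp
    _ ≤ N * x / L ^ U * 1 := by
        apply mul_le_mul_of_nonneg_left _ (by positivity)
        rw [div_le_one hL0]
        exact hL
    _ = _ := mul_one _

end Pool.Agent.H96.PC
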