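import Pool.Agent.H96.PC.C

set_option autoImplicit false

/-! From weighted sums to numbers of primes. (After `Pool.Agent.K7.H49.LT.dense_primes`.) -/

namespace Pool.Agent.H96.PC
open Finset Pool.Agent.H373R2.T7
open Pool.Agent.K7.H49.LT (cntD SfD SfD_eq weigh fin_arith PP pp_card)

set_option maxHeartbeats 2000000 in
open Classical in
theorem to_count (k A B : ℕ) (ε : ℝ) (hε : 0 < ε) : ∃ N0 : ℕ, ∀ N : ℕ, N0 ≤ N →
    ∀ (x : Fin k → ℕ) (s : Fin k → ℕ → ℤ) (𝒩 : Finset ℕ) (f : Fin k → ℕ → ℕ),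
    (∀ i, ∀ n ∈ 𝒩, 1 ≤ f i n ∧ f i n ≤ B * N) →
    (∀ i, ∀ n ∈ 𝒩, ∀ n' ∈ 𝒩, n ≠ n' → f i n ≠ f i n') →
    (∀ i, ∀ l ∈ Icc 1 (x i), |s i l| ≤ B * N) →
    (∀ i, ∀ l ∈ Icc 1 (x i), ∀ n ∈ 𝒩, 0 < (f i n : ℤ) + s i l) →
    ∀ z : ℕ,
    (((Fintype.piFinset (fun i => Icc 1 (x i))).filter (fun l => N / Real.log N ^ (A + 1) <
      |∑ n ∈ 𝒩, (∏ i, lamI ((f i n : ℤ) + s i (l i)) - ∏ i, lamzI z ((f i n : ℤ) + s i (l i)))|)).card : ℝ) ≤
      (∏ i, (x i : ℝ)) / Real.log N ^ (A + 1) →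
    (((Fintype.piFinset (fun i => Icc 1 (x i))).filter (fun l => ¬
      |(cntD f (fun i => s i (l i)) 𝒩 : ℝ) * Real.log N ^ k - SfD f (fun i => s i (l i)) 𝒩 z| ≤
        ε * SfD f (fun i => s i (l i)) 𝒩 z + N / Real.log N ^ A)).card : ℝ) ≤
      (∏ i, (x i : ℝ)) / Real.log N ^ A := by
  set ε' : ℝ := min ε 1 / 4 with hε'
  have hε'0 : 0 < ε' := by have := lt_min hε one_pos; positivity
  have hε'1 : ε' ≤ 1 / 4 := by rw [hε']; have := min_le_right ε 1; linarith
  have hε'2 : 4 * ε' ≤ ε := by rw [hε']; have := min_le_left ε 1; linarith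
  set η : ℝ := ε' / (2 * (k + 1)) with hη
  have hη0 : 0 < η := by positivity
  have hk0 : (0 : ℝ) ≤ k := Nat.cast_nonneg _
  have hη1 : η ≤ 1 / 8 := by
    rw [hη, div_le_iff₀ (by positivity)]
    nlinarith
  have hkη : k * η ≤ ε' / 2 := by
    rw [hη]
    have : (k : ℝ) * (ε' / (2 * (k + 1))) = (ε' / 2) * (k / (k + 1)) := by field_simp
    rw [this]
    have h2 : (k : ℝ) / (k + 1) ≤ 1 := by rw [div_le_one (by positivity)]; linarith
    nlinarith
  have hup : (1 + η) ^ k ≤ 1 + ε' := by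
    have h1 : (1 + η) ^ k ≤ Real.exp (k * η) := by
      rw [Real.exp_nat_mul]
      apply pow_le_pow_left₀ (by positivity)
      have := Real.add_one_le_exp η
      linarith
    have h2 : Real.exp (k * η) ≤ Real.exp (ε' / 2) := Real.exp_le_exp.2 hkη
    have h3 := Real.abs_exp_sub_one_sub_id_le (show |ε' / 2| ≤ 1 by rw [abs_of_nonneg (by positivity)]; linarith)
    have h4 := (abs_le.1 h3).2
    nlinarith
  have hlow : 1 - ε' ≤ (1 - η) ^ k := by
    have h1 := one_add_mul_le_pow (show (-2 : ℝ) ≤ -η by linarith) k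
    have h2 : (1 + -η) ^ k = (1 - η) ^ k := by ring
    rw [h2] at h1
    linarith
  obtain ⟨n2, h2⟩ := ev_L' (max 8 B)
  obtain ⟨n3, h3⟩ := ev_log' (1 + k + A + 2) (64 * k * 2 ^ k)
  obtain ⟨n4, h4⟩ := Pool.Agent.K7.H49.PR.ev_pow (1 + 1) 1 η hη0
  obtain ⟨n5, h5⟩ := Pool.Agent.K7.H49.PR.ev_pow (k + A + 1) (2 * k) η hη0
  refine ⟨max n2 (max n3 (max n4 (max n5 3))), fun N hN x s 𝒩 f hf0 hinj hs0 hpos z key => ?_⟩
  have b2 : n2 ≤ N := le_trans (le_max_left _ _) hN
  have b3 : n3 ≤ N := le_trans (le_trans (le_max_left _ _) (le_max_right _ _)) hN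
  have b4 : n4 ≤ N := le_trans (le_trans (le_trans (le_max_left _ _) (le_max_right _ _)) (le_max_right _ _)) hN
  have b5 : n5 ≤ N := le_trans (le_trans (le_trans (le_trans (le_max_left _ _) (le_max_right _ _)) (le_max_right _ _)) (le_max_right _ _)) hN
  have b6 : 3 ≤ N := le_trans (le_trans (le_trans (le_trans (le_max_right _ _) (le_max_right _ _)) (le_max_right _ _)) (le_max_right _ _)) hN
  have hL8 := (le_max_left _ _).trans (h2 N b2)
  have hLBB := (le_max_right _ _).trans (h2 N b2)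
  have a3 := h3 N b3
  have a4 := h4 N b4
  have a5 := h5 N b5
  rw [one_mul] at a4
  have hNr : (3 : ℝ) ≤ N := by exact_mod_cast b6
  have hN0 : (0 : ℝ) < N := by linarith
  set L := Real.log N with hLd
  have hL1 : 1 ≤ L := by linarith
  have hL0 : 0 < L := by linarith
  have hLB1 : 1 ≤ L ^ 1 := one_le_pow₀ hL1
  have hf : ∀ i, ∀ n ∈ 𝒩, 1 ≤ f i n ∧ (f i n : ℝ) ≤ N * L ^ 1 := by
    intro i n hn
    refine ⟨(hf0 i n hn).1, ?_⟩
    have h5 : (f i n : ℝ) ≤ B * N := by exact_mod_cast (hf0 i n hn).2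
    rw [pow_one]
    nlinarith
  have hs : ∀ i, ∀ l ∈ Icc 1 (x i), |(s i l : ℝ)| ≤ N * L ^ 1 := by
    intro i l hl
    have h5 : |(s i l : ℝ)| ≤ B * N := by exact_mod_cast hs0 i l hl
    rw [pow_one]
    nlinarith
  set X2 : ℕ := ⌊2 * N * L ^ 1⌋₊ with hX2
  have hX2r : (X2 : ℝ) ≤ 2 * N * L ^ 1 := Nat.floor_le (by positivity)
  have hX21 : 1 ≤ X2 := by
    apply Nat.le_floor
    push_cast
    nlinarith
  have hX2r1 : (1 : ℝ) ≤ X2 := by exact_mod_cast hX21
  have hlogX2 : Real.log X2 ≤ (1 + η) * L := by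
    have g1 : (X2 : ℝ) ≤ N * (N : ℝ) ^ η := by
      refine hX2r.trans ?_
      calc 2 * N * L ^ 1 ≤ N * L ^ (1 + 1) := by
            have h9 : 2 * L ≤ L * L := mul_le_mul_of_nonneg_right (by linarith) hL0.le
            have h10 := mul_le_mul_of_nonneg_left h9 hN0.le
            have e1 : L ^ (1 + 1) = L * L := by ring
            rw [pow_one, e1]
            linarith
        _ ≤ N * (N : ℝ) ^ η := mul_le_mul_of_nonneg_left a4 hN0.le
    have g2 := Real.log_le_log (by linarith) g1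
    rw [Real.log_mul hN0.ne' (by positivity), Real.log_rpow hN0] at g2
    linarith
  set Y : ℝ := (N : ℝ) ^ (1 - η) with hY
  have hlogY : ∀ m : ℕ, Y < m → (1 - η) * L ≤ Real.log m := by
    intro m hm
    have g1 := Real.log_le_log (by positivity) hm.le
    rwa [hY, Real.log_rpow hN0] at g1
  -- the errors
  have hPPc : ((PP X2).card : ℝ) ≤ 16 * (√(N : ℝ) * L ^ (1 + 1)) := by
    have g1 := pp_card X2 hX21
    have g2 : √(X2 : ℝ) ≤ √(N : ℝ) * (2 * L ^ 1) := by
      calc √(X2 : ℝ) ≤ √(N * (2 * L ^ 1) ^ 2) := by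
            apply Real.sqrt_le_sqrt
            refine hX2r.trans ?_
            nlinarith
        _ = √(N : ℝ) * (2 * L ^ 1) := by rw [Real.sqrt_mul hN0.le, Real.sqrt_sq (by positivity)]
    have g3 : Real.log X2 ≤ 2 * L := by nlinarith
    have g4 : 0 ≤ Real.log (X2 : ℝ) := Real.log_natCast_nonneg _
    calc ((PP X2).card : ℝ) ≤ 4 * (√(X2 : ℝ) * Real.log X2) := g1
      _ ≤ 4 * ((√(N : ℝ) * (2 * L ^ 1)) * (2 * L)) := by
          apply mul_le_mul_of_nonneg_left _ (by norm_num)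
          exact mul_le_mul g2 g3 g4 (by positivity)
      _ = _ := by rw [pow_succ]; ring
  set δ : ℝ := N / L ^ (A + 1) with hδ
  have hδ0 : 0 < δ := by positivity
  have herr1 : (2 * L) ^ k * (k * (PP X2).card) ≤ δ / 2 := by
    rw [hδ, div_div, le_div_iff₀ (by positivity)]
    calc (2 * L) ^ k * (k * (PP X2).card) * (L ^ (A + 1) * 2) ≤
          (2 * L) ^ k * (k * (16 * (√(N : ℝ) * L ^ (1 + 1)))) * (L ^ (A + 1) * 2) := by
          apply mul_le_mul_of_nonneg_right _ (by positivity)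
          apply mul_le_mul_of_nonneg_left _ (by positivity)
          exact mul_le_mul_of_nonneg_left hPPc hk0
      _ = (32 * k * 2 ^ k * L ^ (1 + k + A + 2)) * √(N : ℝ) := by
          have e : L ^ (1 + k + A + 2) = L ^ k * L ^ (1 + 1) * L ^ (A + 1) := by
            rw [← pow_add, ← pow_add]
            congr 1
            omega
          rw [e, mul_pow]
          ring
      _ ≤ √(N : ℝ) * √(N : ℝ) := by
          apply mul_le_mul_of_nonneg_right _ (Real.sqrt_nonneg _)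
          refine le_trans ?_ a3
          apply mul_le_mul_of_nonneg_right _ (by positivity)
          have : (0 : ℝ) ≤ k * 2 ^ k := by positivity
          nlinarith
      _ = N := Real.mul_self_sqrt hN0.le
  have herr2 : L ^ k * (k * Y) ≤ δ / 2 := by
    rw [hδ, div_div, le_div_iff₀ (by positivity)]
    calc L ^ k * (k * Y) * (L ^ (A + 1) * 2) = (2 * k * L ^ (k + A + 1)) * Y := by
          have e : L ^ (k + A + 1) = L ^ k * L ^ (A + 1) := by rw [← pow_add]; congr 1
          rw [e]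
          ring
      _ ≤ (N : ℝ) ^ η * Y := mul_le_mul_of_nonneg_right a5 (by positivity)
      _ = N := by
          rw [hY, ← Real.rpow_add hN0]
          simp
  -- the inclusion
  refine le_trans ?_ (key.trans ?_)
  · apply Nat.cast_le.2
    apply card_le_card
    intro l hl
    rw [mem_filter] at hl ⊢
    refine ⟨hl.1, ?_⟩
    by_contra hcon
    rw [not_lt] at hcon
    apply hl.2
    have hlx := Fintype.mem_piFinset.1 hl.1
    have hp : ∀ i, ∀ n ∈ 𝒩, 0 < (f i n : ℤ) + s i (l i) := fun i n hn => hpos i (l i) (hlx i) n hn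
    have hSf := SfD_eq f (fun i => s i (l i)) 𝒩 z hp
    set S := SfD f (fun i => s i (l i)) 𝒩 z with hS
    have hS0 : 0 ≤ S := by
      rw [hS]
      unfold SfD
      have := Vz_pos z
      positivity
    set v : Fin k → ℕ → ℕ := fun i n => ((f i n : ℤ) + s i (l i)).toNat with hv
    have hvz : ∀ i, ∀ n ∈ 𝒩, ((v i n : ℕ) : ℤ) = (f i n : ℤ) + s i (l i) := fun i n hn => Int.toNat_of_nonneg (hp i n hn).le
    have hW := weigh v 𝒩 X2 L η Y hL1 hη0 (by linarith) (by positivity)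
      (fun i n hn n' hn' hne h => by
        apply hinj i n hn n' hn' hne
        have g1 := hvz i n hn
        have g2 := hvz i n' hn'
        rw [h, g2] at g1
        have : (f i n' : ℤ) = f i n := by linarith
        exact_mod_cast this.symm)
      (fun i n hn => by
        have g1 := hvz i n hn
        have g2 := hp i n hn
        refine ⟨by omega, ?_⟩
        apply Nat.le_floor
        have g3 : ((v i n : ℕ) : ℝ) = (f i n : ℝ) + s i (l i) := by exact_mod_cast congrArg (fun t : ℤ => (t : ℝ)) g1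
        rw [g3]
        have g4 := (hf i n hn).2
        have g5 := (abs_le.1 (hs i (l i) (hlx i))).2
        linarith) hlogX2 hlogY
    have hR : ∑ n ∈ 𝒩, ∏ i, lamI ((f i n : ℤ) + s i (l i)) = ∑ n ∈ 𝒩, ∏ i, ArithmeticFunction.vonMangoldt (v i n) := by
      apply sum_congr rfl
      intro n hn
      apply prod_congr rfl
      intro i _
      unfold lamI
      have := hp i n hn
      rw [if_pos (by omega)]
    rw [sum_sub_distrib, hSf, hR] at hcon
    set R := ∑ n ∈ 𝒩, ∏ i, ArithmeticFunction.vonMangoldt (v i n) with hRd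
    have hcnt : ((𝒩.filter (fun n => ∀ i, (v i n).Prime)).card : ℝ) = cntD f (fun i => s i (l i)) 𝒩 := rfl
    rw [hcnt] at hW
    set ct : ℝ := (cntD f (fun i => s i (l i)) 𝒩 : ℝ) with hct
    have hct0 : 0 ≤ ct := Nat.cast_nonneg _
    obtain ⟨w1, w2⟩ := hW
    have hLk0 : 0 < L ^ k := by positivity
    have hcL : 0 ≤ ct * L ^ k := by positivity
    -- upper bound for R
    have q1 : R ≤ (1 + ε') * (ct * L ^ k) + δ / 2 := by
      refine w1.trans (add_le_add ?_ herr1)
      calc (1 + η) ^ k * L ^ k * ct = (1 + η) ^ k * (ct * L ^ k) := by ring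
        _ ≤ _ := mul_le_mul_of_nonneg_right hup hcL
    have q2 : (1 - ε') * (ct * L ^ k) - δ / 2 ≤ R := by
      have g1 : (1 - η) ^ k ≤ 1 := pow_le_one₀ (by linarith) (by linarith)
      have g2 : (1 - η) ^ k * L ^ k * (ct - k * Y) = (1 - η) ^ k * (ct * L ^ k) - (1 - η) ^ k * (L ^ k * (k * Y)) := by ring
      rw [g2] at w2
      have g3 : (1 - ε') * (ct * L ^ k) ≤ (1 - η) ^ k * (ct * L ^ k) := mul_le_mul_of_nonneg_right hlow hcL
      have g4 : 0 ≤ L ^ k * (k * Y) := by positivity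
      have g5 : (1 - η) ^ k * (L ^ k * (k * Y)) ≤ 1 * (L ^ k * (k * Y)) := mul_le_mul_of_nonneg_right g1 g4
      linarith
    have hδA : 8 * δ ≤ N / L ^ A := by
      have e : (N : ℝ) / L ^ A = L * δ := by rw [hδ, pow_succ]; field_simp
      rw [e]
      exact mul_le_mul_of_nonneg_right hL8 hδ0.le
    exact fin_arith (ct * L ^ k) S R δ ε ε' (N / L ^ A) hε'0 hε'1 hε'2 hS0 hcL hδ0 hδA q1 q2 hcon
  · apply div_le_div_of_nonneg_left (prod_nonneg fun _ _ => Nat.cast_nonneg _) (by positivity)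
    exact pow_le_pow_right₀ hL1 (by omega)

end Pool.Agent.H96.PC
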