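import Pool.Agent.H96.PC.D
import Pool.Agent.H96.LM.D

set_option autoImplicit false

/-! The good moduli for the differences of the von Mangoldt function and its sieve models. -/

namespace Pool.Agent.H96.PC
open Finset
open Pool.Agent.H373R2.T7 (ev_L' energy lamI lamzI lamz)
open Pool.Agent.Y883.T4 (BadF mainW)
open Pool.Agent.Y883.T3

theorem moduliF (R A A₁ : ℕ) (hR : 1 ≤ R) (ρ : ℝ) (hρ : 0 < ρ) : ∃ D₀ c : ℕ, ∀ E : ℕ, ∃ N₀ : ℕ, ∀ N : ℕ, N₀ ≤ N →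
    ∀ z : ℕ, Real.log N ^ D₀ ≤ z → (z : ℝ) ≤ Real.log N ^ E → ∃ (f : ℕ → ℝ) (D : Finset ℕ),
    (∑ n ∈ Icc 1 (R * N), |(ArithmeticFunction.vonMangoldt n - lamz z n) - f n| ≤
      ((R * N : ℕ) : ℝ) / Real.log ((R * N : ℕ) : ℝ) ^ A₁) ∧
    (∑ n ∈ Icc 1 (R * N), f n ^ 2 ≤ ((R * N : ℕ) : ℝ) * Real.log ((R * N : ℕ) : ℝ) ^ 8) ∧
    (∀ d ∈ D, Real.log N ^ A < (d : ℝ)) ∧
    (∀ X : ℝ, 1 ≤ X → ((D.filter (fun d : ℕ => (d : ℝ) ≤ X)).card : ℝ) ≤ X ^ ρ) ∧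
    (∀ q : ℕ, 1 ≤ q → (q : ℝ) ≤ (N : ℝ) ^ (2 / 3 - ρ) → (∀ d ∈ D, ¬ d ∣ q) → ¬ BadF f (R * N) A₁ q) ∧
    ∀ X : ℕ, X ≤ N → ∀ F : Finset ℕ, (∀ q ∈ F, 1 ≤ q ∧ q ≤ X ∧ (∀ d ∈ D, ¬ d ∣ q) ∧ BadF f (R * N) A₁ q) →
      (F.card : ℝ) * N ≤ (X : ℝ) ^ 2 * Real.log N ^ c := by
  classical
  obtain ⟨ρ', hρ'⟩ : ∃ ρ' : ℝ, ρ' = min ρ (1 / 3) := ⟨_, rfl⟩
  have hρ0 : 0 < ρ' := by rw [hρ']; exact lt_min hρ (by norm_num)
  have hρ1 : ρ' ≤ ρ := by rw [hρ']; exact min_le_left _ _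
  have hρ2 : ρ' ≤ 1 / 3 := by rw [hρ']; exact min_le_right _ _
  obtain ⟨A₂, hA₂⟩ : ∃ A₂, A₂ = A + A₁ := ⟨_, rfl⟩
  obtain ⟨c₁, U₁, N₁, h1⟩ := mainW ρ' hρ0 A₂
  obtain ⟨U', hU'⟩ : ∃ U', U' = max U₁ A₁ := ⟨_, rfl⟩
  obtain ⟨B₀, hB₀⟩ := model U'
  refine ⟨B₀ + 1, c₁ + 1, fun E => ?_⟩
  obtain ⟨N₂, h2⟩ := hB₀ E
  obtain ⟨N₃, h3⟩ := ev_L' (Real.log R + 2 ^ c₁ + 2 ^ B₀ + 3)
  refine ⟨N₁ + N₂ + N₃ + 3, fun N hN z hz1 hz2 => ?_⟩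
  have hL := h3 N (by omega)
  have hN1 : 1 ≤ N := by omega
  have hN0 : (0 : ℝ) < N := by exact_mod_cast hN1
  have hR0 : (0 : ℝ) < R := by exact_mod_cast hR
  obtain ⟨M, hM⟩ : ∃ M, M = R * N := ⟨_, rfl⟩
  have hNM : N ≤ M := by rw [hM]; exact Nat.le_mul_of_pos_left _ hR
  have hNMr : (N : ℝ) ≤ M := by exact_mod_cast hNM
  have hM0 : (0 : ℝ) < M := by linarith
  rw [← hM]
  have hlR : 0 ≤ Real.log R := Real.log_nonneg (by exact_mod_cast hR)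
  have hc1 : (0 : ℝ) ≤ 2 ^ c₁ := by positivity
  have hc2 : (0 : ℝ) ≤ 2 ^ B₀ := by positivity
  have hLLM : Real.log N ≤ Real.log M := Real.log_le_log hN0 hNMr
  have hLM2 : Real.log M ≤ 2 * Real.log N := by
    rw [hM]
    push_cast
    rw [Real.log_mul hR0.ne' hN0.ne']
    linarith
  have hL1 : 1 ≤ Real.log (N : ℝ) := by linarith
  have hLM1 : 1 ≤ Real.log (M : ℝ) := by linarith
  have hzB : Real.log M ^ B₀ ≤ z := by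
    calc Real.log M ^ B₀ ≤ (2 * Real.log N) ^ B₀ := pow_le_pow_left₀ (by linarith) hLM2 _
      _ = 2 ^ B₀ * Real.log N ^ B₀ := by rw [mul_pow]
      _ ≤ Real.log N * Real.log N ^ B₀ := mul_le_mul_of_nonneg_right (by linarith) (by positivity)
      _ = Real.log N ^ (B₀ + 1) := by ring
      _ ≤ z := hz1
  have hzE : (z : ℝ) ≤ Real.log M ^ E := hz2.trans (pow_le_pow_left₀ (by linarith) hLLM _)
  obtain ⟨f, hf1, hf2, hf3, hf4⟩ := h2 M (by omega) z hzB hzE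
  have hU1 : Real.log M ^ U₁ ≤ Real.log M ^ U' := pow_le_pow_right₀ hLM1 (by rw [hU']; exact le_max_left _ _)
  have hU2 : Real.log M ^ A₁ ≤ Real.log M ^ U' := pow_le_pow_right₀ hLM1 (by rw [hU']; exact le_max_right _ _)
  have hFM : Pool.Agent.Y883.T4.FM f M U₁ := by
    refine ⟨hf2, ?_, hf4⟩
    intro α
    exact (hf3 α).trans (div_le_div_of_nonneg_left hM0.le (by positivity) hU1)
  obtain ⟨D, hD1, hD2, hD3, hD4⟩ := h1 M (by omega) f hFM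
  refine ⟨f, D, hf1.trans (div_le_div_of_nonneg_left hM0.le (by positivity) hU2), hf2, ?_, ?_, ?_, ?_⟩
  · intro d hd
    refine lt_of_le_of_lt ?_ (hD1 d hd)
    calc Real.log N ^ A ≤ Real.log M ^ A := pow_le_pow_left₀ (by linarith) hLLM _
      _ ≤ Real.log M ^ A₂ := pow_le_pow_right₀ hLM1 (by omega)
  · intro X hX
    exact (hD2 X hX).trans (Real.rpow_le_rpow_of_exponent_le hX hρ1)
  · intro q hq1 hq2 hq3 hb
    refine hD3 q hq1 ?_ hq3 (badF_mono f M A₁ A₂ q (by omega) hLM1 hq1 hb)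
    refine hq2.trans ?_
    have hN1r : (1 : ℝ) ≤ N := by exact_mod_cast hN1
    calc (N : ℝ) ^ (2 / 3 - ρ) ≤ (N : ℝ) ^ (2 / 3 - ρ') := Real.rpow_le_rpow_of_exponent_le hN1r (by linarith)
      _ ≤ (M : ℝ) ^ (2 / 3 - ρ') := Real.rpow_le_rpow hN0.le hNMr (by linarith)
  · intro X hX F hF
    have h4 := hD4 X (by omega) F (fun q hq => ⟨(hF q hq).1, (hF q hq).2.1, (hF q hq).2.2.1,
      badF_mono f M A₁ A₂ q (by omega) hLM1 (hF q hq).1 (hF q hq).2.2.2⟩)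
    have hF0 : (0 : ℝ) ≤ F.card := Nat.cast_nonneg _
    calc (F.card : ℝ) * N ≤ F.card * M := mul_le_mul_of_nonneg_left hNMr hF0
      _ ≤ (X : ℝ) ^ 2 * Real.log M ^ c₁ := h4
      _ ≤ (X : ℝ) ^ 2 * (2 * Real.log N) ^ c₁ := by
          apply mul_le_mul_of_nonneg_left _ (by positivity)
          exact pow_le_pow_left₀ (by linarith) hLM2 _
      _ = (X : ℝ) ^ 2 * (2 ^ c₁ * Real.log N ^ c₁) := by rw [mul_pow]
      _ ≤ (X : ℝ) ^ 2 * (Real.log N * Real.log N ^ c₁) := by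
          apply mul_le_mul_of_nonneg_left _ (by positivity)
          apply mul_le_mul_of_nonneg_right _ (by positivity)
          linarith
      _ = (X : ℝ) ^ 2 * Real.log N ^ (c₁ + 1) := by ring

end Pool.Agent.H96.PC
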