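import Pool.Agent.H96.PC.E

set_option autoImplicit false

/-! Primes and tuples of shifts from finite families in residue classes. -/

namespace Pool.Agent.H96.PC
open Finset
open Pool.Agent.TH935.GF (En)
open Pool.Agent.K7.H49.LT (cntD SfD)
open Pool.Agent.H373R2.T7 (ev_L' energy lamI lamzI lamz)
open Pool.Agent.Y883.T4 (BadF)

open Classical in
/-- tuples from finite families in residue classes -/
theorem tuples_pr (k p A B C : ℕ) (ε : ℝ) (hε : 0 < ε) (hp : 1 ≤ p) : ∃ A₁ : ℕ, ∀ E : ℕ, ∃ N₀ : ℕ, ∀ N : ℕ, N₀ ≤ N →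
    ∀ (z : ℕ), 1 ≤ z → (z : ℝ) ≤ Real.log N ^ E → ∀ f : ℕ → ℝ,
    ∑ n ∈ Icc 1 ((2 * B + 4) * N), |(ArithmeticFunction.vonMangoldt n - lamz z n) - f n| ≤
      (((2 * B + 4) * N : ℕ) : ℝ) / Real.log (((2 * B + 4) * N : ℕ) : ℝ) ^ A₁ →
    ∑ n ∈ Icc 1 ((2 * B + 4) * N), f n ^ 2 ≤ (((2 * B + 4) * N : ℕ) : ℝ) * Real.log (((2 * B + 4) * N : ℕ) : ℝ) ^ 8 →
    ∀ q : Fin k → ℕ, (∀ i, 1 ≤ q i ∧ q i ≤ N ∧ ¬ BadF f ((2 * B + 4) * N) A₁ (q i)) → ∀ c : Fin k → ℤ,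
    ∀ (Z : Fin k → Type) [∀ i, Fintype (Z i)] (t : ∀ i, Z i → ℤ), (∀ i w, |c i + q i * t i w| ≤ B * N) →
    (∀ i, (En p (t i) : ℝ) * N ≤ Real.log N ^ C * q i * (Fintype.card (Z i) : ℝ) ^ (2 * p)) →
    ∀ (𝒩 : Finset ℕ) (g : Fin k → ℕ → ℕ), (∀ i, ∀ n ∈ 𝒩, 1 ≤ g i n ∧ g i n ≤ B * N) →
    (∀ i, ∀ n ∈ 𝒩, ∀ n' ∈ 𝒩, n ≠ n' → g i n ≠ g i n') →
    (∀ i w, ∀ n ∈ 𝒩, 0 < (g i n : ℤ) + (c i + q i * t i w)) →
    ((univ.filter (fun w : ∀ i, Z i => ¬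
      |(cntD g (fun i => c i + q i * t i (w i)) 𝒩 : ℝ) * Real.log N ^ k - SfD g (fun i => c i + q i * t i (w i)) 𝒩 z| ≤
        ε * SfD g (fun i => c i + q i * t i (w i)) 𝒩 z + N / Real.log N ^ A)).card : ℝ) ≤
      Fintype.card (∀ i, Z i) / Real.log N ^ A := by
  obtain ⟨A₁, n1, h1⟩ := pair_cls p B C (2 * (A + 1) + k + 1) hp
  obtain ⟨n2, h2⟩ := to_count k A B ε hε
  refine ⟨A₁, fun E => ?_⟩
  obtain ⟨n3, h3⟩ := dense_mom k (A + 1) B E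
  refine ⟨n1 + n2 + n3, fun N hN z hz1 hz2 f hf1 hf2 q hq c Z _ t hv hE 𝒩 g hg1 hg2 hg3 => ?_⟩
  choose e s hinj hmem hsurj hse hen using fun i => Pool.Agent.H96.LM.reindex (t i)
  have hb : ∀ i, ∀ m ∈ Icc 1 (Fintype.card (Z i)), |c i + q i * s i m| ≤ B * N := by
    intro i m hm
    obtain ⟨w, rfl⟩ := hsurj i m hm
    rw [hse]
    exact hv i w
  have hpos : ∀ i, ∀ m ∈ Icc 1 (Fintype.card (Z i)), ∀ n ∈ 𝒩, 0 < (g i n : ℤ) + (c i + q i * s i m) := by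
    intro i m hm n hn
    obtain ⟨w, rfl⟩ := hsurj i m hm
    rw [hse]
    exact hg3 i w n hn
  have hmom := h3 N (by omega) (fun i => Fintype.card (Z i)) (fun i m => c i + q i * s i m) 𝒩 g hg1 hg2 hb z hz1 hz2
    (fun i G hG => h1 N (by omega) z f hf1 hf2 (q i) (hq i).1 (hq i).2.1 (hq i).2.2 (c i) _ (s i) (by
      intro m hm
      have := hb i m hm
      have h4 : (0 : ℤ) ≤ N := by positivity
      linarith) (by rw [hen]; exact hE i) (B * N) (Nat.mul_le_mul_right _ (by omega)) G hG)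
  have hcnt := h2 N (by omega) (fun i => Fintype.card (Z i)) (fun i m => c i + q i * s i m) 𝒩 g hg1 hg2 hb hpos z hmom
  have e1 : (Fintype.card (∀ i, Z i) : ℝ) = ∏ i, (Fintype.card (Z i) : ℝ) := by
    rw [Fintype.card_pi]
    push_cast
    rfl
  rw [e1]
  refine le_trans ?_ hcnt
  rw [Nat.cast_le]
  apply card_le_card_of_injOn (fun w i => e i (w i))
  · intro w hw
    rw [mem_coe, mem_filter] at hw
    rw [mem_coe, mem_filter, Fintype.mem_piFinset]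
    refine ⟨fun i => hmem i _, ?_⟩
    simp only [hse]
    exact hw.2
  · intro w _ w' _ h
    funext i
    exact hinj i (congrFun h i)

open Classical in
/-- tuples from finite families in residue classes, windows around the members -/
theorem tuples_pr_win (k p A W B C : ℕ) (ε : ℝ) (hε : 0 < ε) (hp : 1 ≤ p) : ∃ A₁ : ℕ, ∀ E : ℕ, ∃ N₀ : ℕ, ∀ N : ℕ, N₀ ≤ N →
    ∀ (z : ℕ), 1 ≤ z → (z : ℝ) ≤ Real.log N ^ E → ∀ f : ℕ → ℝ,
    ∑ n ∈ Icc 1 ((2 * (B + 1) + 4) * N), |(ArithmeticFunction.vonMangoldt n - lamz z n) - f n| ≤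
      (((2 * (B + 1) + 4) * N : ℕ) : ℝ) / Real.log (((2 * (B + 1) + 4) * N : ℕ) : ℝ) ^ A₁ →
    ∑ n ∈ Icc 1 ((2 * (B + 1) + 4) * N), f n ^ 2 ≤
      (((2 * (B + 1) + 4) * N : ℕ) : ℝ) * Real.log (((2 * (B + 1) + 4) * N : ℕ) : ℝ) ^ 8 →
    ∀ q : Fin k → ℕ, (∀ i, 1 ≤ q i ∧ q i ≤ N ∧ ¬ BadF f ((2 * (B + 1) + 4) * N) A₁ (q i)) → ∀ c : Fin k → ℤ,
    ∀ (Z : Fin k → Type) [∀ i, Fintype (Z i)] (t : ∀ i, Z i → ℤ), (∀ i w, |c i + q i * t i w| ≤ B * N) →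
    (∀ i, (En p (t i) : ℝ) * N ≤ Real.log N ^ C * q i * (Fintype.card (Z i) : ℝ) ^ (2 * p)) →
    ∀ (𝒩 : Finset ℕ) (g : Fin k → ℕ → ℕ) (V : ℕ), (V : ℝ) ≤ Real.log N ^ W → (∀ i, ∀ n ∈ 𝒩, 1 ≤ g i n ∧ g i n ≤ B * N) →
    (∀ i, ∀ n ∈ 𝒩, ∀ n' ∈ 𝒩, n ≠ n' → g i n ≠ g i n') →
    (∀ i w, ∀ n ∈ 𝒩, V < (g i n : ℤ) + (c i + q i * t i w)) →
    ∀ bad : (∀ i, Z i) → Prop, (∀ w, bad w → ∃ c' : Fin k → ℤ, (∀ i, |c' i| ≤ V) ∧ ¬
      |(cntD g (fun i => c i + q i * t i (w i) + c' i) 𝒩 : ℝ) * Real.log N ^ k -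
        SfD g (fun i => c i + q i * t i (w i) + c' i) 𝒩 z| ≤
        ε * SfD g (fun i => c i + q i * t i (w i) + c' i) 𝒩 z + N / Real.log N ^ A) →
    ((univ.filter bad).card : ℝ) ≤ Fintype.card (∀ i, Z i) / Real.log N ^ A := by
  obtain ⟨A₁, h0⟩ := tuples_pr k p (A + (W + 1) * k) (B + 1) C ε hε hp
  refine ⟨A₁, fun E => ?_⟩
  obtain ⟨N₀, h0⟩ := h0 E
  obtain ⟨N₁, h1⟩ := ev_L' 3
  obtain ⟨N₂, h2⟩ := Pool.Agent.TH935.LD.log_pow_small W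
  refine ⟨N₀ + N₁ + N₂ + 3, fun N hN z hz1 hz2 f hf1 hf2 q hq c Z _ t hv hE 𝒩 g V hV hg1 hg2 hg3 bad hbad => ?_⟩
  have hL3 := h1 N (by omega)
  have hsm := h2 N (by omega)
  have h0' := h0 N (by omega) z hz1 hz2 f hf1 hf2 q hq
  obtain ⟨L, hLd⟩ : ∃ L, L = Real.log (N : ℝ) := ⟨_, rfl⟩
  rw [← hLd] at hL3 hsm hbad hE hV h0' ⊢
  have hL0 : 0 < L := by linarith
  have hL1 : 1 ≤ L := by linarith
  have hVN : (V : ℝ) ≤ N := by
    have : 0 < L ^ W := by positivity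
    linarith
  have hVN' : V ≤ N := by exact_mod_cast hVN
  obtain ⟨Q, hQ⟩ : ∃ Q : (Fin k → ℤ) → (∀ i, Z i) → Prop, Q = fun c' w => ¬
      |(cntD g (fun i => c i + q i * t i (w i) + c' i) 𝒩 : ℝ) * L ^ k -
        SfD g (fun i => c i + q i * t i (w i) + c' i) 𝒩 z| ≤
        ε * SfD g (fun i => c i + q i * t i (w i) + c' i) 𝒩 z + N / L ^ A := ⟨_, rfl⟩
  obtain ⟨S, hS⟩ : ∃ S : Finset (Fin k → ℤ), S = Fintype.piFinset fun _ => Icc (-(V : ℤ)) V := ⟨_, rfl⟩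
  have hcov : (univ : Finset (∀ i, Z i)).filter bad ⊆ S.biUnion (fun c' => univ.filter (Q c')) := by
    intro w hw
    rw [mem_filter] at hw
    obtain ⟨c', hc, h3⟩ := hbad w hw.2
    rw [mem_biUnion]
    refine ⟨c', ?_, ?_⟩
    · rw [hS, Fintype.mem_piFinset]
      intro i
      rw [mem_Icc]
      exact abs_le.1 (hc i)
    · rw [mem_filter, hQ]
      exact ⟨mem_univ _, h3⟩
  have hle : (N : ℝ) / L ^ (A + (W + 1) * k) ≤ N / L ^ A :=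
    div_le_div_of_nonneg_left (by positivity) (by positivity) (pow_le_pow_right₀ hL1 (by omega))
  have hj : ∀ c' ∈ S, (((univ : Finset (∀ i, Z i)).filter (Q c')).card : ℝ) ≤
      Fintype.card (∀ i, Z i) / L ^ (A + (W + 1) * k) := by
    intro c' hc
    rw [hS, Fintype.mem_piFinset] at hc
    have e1 : ∀ i (w : Z i), c i + q i * t i w + c' i = (c i + c' i) + q i * t i w := fun i w => by ring
    refine le_trans ?_ (h0' (fun i => c i + c' i) Z t ?_ hE 𝒩 g ?_ hg2 ?_)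
    · rw [Nat.cast_le]
      apply card_le_card
      intro w hw
      rw [mem_filter, hQ] at hw
      rw [mem_filter]
      refine ⟨mem_univ _, fun h4 => hw.2 ?_⟩
      simp only [e1]
      refine h4.trans ?_
      linarith
    · intro i w
      have h4 := hv i w
      have h5 := hc i
      rw [mem_Icc, ← abs_le] at h5
      have h6 : (V : ℤ) ≤ N := by exact_mod_cast hVN'
      calc |(c i + c' i) + q i * t i w| = |(c i + q i * t i w) + c' i| := by rw [e1]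
        _ ≤ |c i + q i * t i w| + |c' i| := abs_add_le _ _
        _ ≤ B * N + N := by linarith
        _ = _ := by push_cast; ring
    · intro i n hn
      exact ⟨(hg1 i n hn).1, (hg1 i n hn).2.trans (Nat.mul_le_mul_right _ (by omega))⟩
    · intro i w n hn
      have h4 := hg3 i w n hn
      have h5 := hc i
      rw [mem_Icc] at h5
      linarith [h5.1]
  have hScard : (S.card : ℝ) ≤ L ^ ((W + 1) * k) := by
    rw [hS, Fintype.card_piFinset, prod_const, card_univ, Fintype.card_fin, Int.card_Icc]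
    have e1 : ((V : ℤ) + 1 - -(V : ℤ)).toNat = 2 * V + 1 := by omega
    rw [e1]
    push_cast
    have h3 : (2 * (V : ℝ) + 1) ≤ L ^ (W + 1) := by
      have h4 : 1 ≤ L ^ W := one_le_pow₀ hL1
      rw [pow_succ]
      nlinarith
    calc (2 * (V : ℝ) + 1) ^ k ≤ (L ^ (W + 1)) ^ k := by gcongr
      _ = _ := by rw [← pow_mul]
  calc (((univ : Finset (∀ i, Z i)).filter bad).card : ℝ) ≤ ((S.biUnion (fun c' => univ.filter (Q c'))).card : ℝ) := by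
        exact_mod_cast card_le_card hcov
    _ ≤ ∑ c' ∈ S, (((univ : Finset (∀ i, Z i)).filter (Q c')).card : ℝ) := by exact_mod_cast card_biUnion_le
    _ ≤ ∑ _c ∈ S, (Fintype.card (∀ i, Z i) / L ^ (A + (W + 1) * k) : ℝ) := sum_le_sum hj
    _ = S.card * (Fintype.card (∀ i, Z i) / L ^ (A + (W + 1) * k) : ℝ) := by rw [sum_const, nsmul_eq_mul]
    _ ≤ L ^ ((W + 1) * k) * (Fintype.card (∀ i, Z i) / L ^ (A + (W + 1) * k) : ℝ) := by gcongr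
    _ = _ := by
        rw [pow_add]
        field_simp

end Pool.Agent.H96.PC
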